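import Pool.Agent.Q309.MG.Final

/-!
# MP_e0f6ac_lc, Q2

Cohen forcing is strongly proper for stationarily many models, but it does not preserve the
existence of a winning strategy of player II in the `k`-Menger game.
-/

set_option autoImplicit false

namespace Pool.Agent.Results.MP_e0f6ac_lc.KMengerNotPreserved

open Pool.Agent.Helper669.Forcing Pool.Agent.Q309.MG Pool.Agent.Q309.SP

/-- Cohen forcing `Coh` is strongly proper for stationarily many models, player II has a winning
strategy in the `k`-Menger game on the Cantor space, and every condition of `Coh` forces that
player II has no winning strategy in the `k`-Menger game on the Cantor space of the ground model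
with the topology generated by the open sets of the ground model, even when player I may only play
`k`-covers that consist of open sets of the ground model. -/
theorem result : StronglyProperStat Coh ∧ WinsKMenger Cantor ∧
    ∀ p : Coh, p ∈ fnot (FKMenger Coh Cantor) :=
  ⟨stronglyProper_coh, winsKMenger, not_FKMenger⟩

end Pool.Agent.Results.MP_e0f6ac_lc.KMengerNotPreserved
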